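import Pool.Agent.TH810.CW.Squaring

/-!
# Probabilistic circuits with arbitrary gates for all-pairs shortest paths

The gates of a circuit (`Circuit`) compute arbitrary functions of the multiset of the labels and
values on their wires, with unbounded fan-in and values in an arbitrary set; an input gate reads a
whole entry of the weight matrix (`⊤` = no arc), and there is an output gate for every ordered pair
of vertices. The wiring of a gate consists of the entry it reads and of the labels and functions on
its wires (as functions of the weight matrix); `numWirings` is the number of different transforms of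
the wirings of all gates under relabelings of the vertices. No symmetry of the circuits is assumed.

1. Let the vertex set consist of three families of `r` pairs of vertices, and a rest. There is an
   elementary abelian group `Γ` of at most `2 r` permutations (swaps of the pairs of one family)
   such that every probabilistic circuit that computes all distances with error probability at most
   `ε` (only in undirected unweighted graphs) has an expected number of wirings up to
   `Γ × Γ × Γ` of at least `(1 - 2 ε) r ^ 3`.
2. Repeated squaring has at most `(n ^ 3 + n ^ 2) ⌈log₂ n⌉ + n ^ 2` wirings up to all relabelings of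
   the `n` vertices, for arbitrary directed graphs with weights in `ℕ`.
-/

set_option autoImplicit false

namespace Pool.Agent.Results.MP_885423_lc.CubicWirings

open Finset
open Pool.Agent.H429R4.FW Pool.Agent.H429R4.TR Pool.Agent.TH810.CW

open Classical in
theorem result :
    -- probabilistic circuits
    (∀ r : ℕ, 1 ≤ r → ∃ Γ : AddSubgroup (Fin r → ZMod 2), Nat.card Γ ≤ 2 * r ∧
      ∀ (Z Ω : Type) [Fintype Z] [Fintype Ω] (p : Ω → ℝ),
        (∀ ω, 0 ≤ p ω) → ∑ ω, p ω = 1 →
        ∀ (D L : Type) (dec : D → ℕ∞) (C : Ω → Circuit ℕ∞ (Kx r Z × Kx r Z) D L)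
          (out : ∀ ω, Kx r Z → Kx r Z → (C ω).Gate) (ε : ℝ),
          (∀ W : Kx r Z → Kx r Z → ℕ∞, (∀ u v, W u v = 1 ∨ W u v = ⊤) → (∀ u v, W u v = W v u) →
            (∀ u, W u u = ⊤) → ∑ ω with ¬ RightD (C ω) (out ω) dec W, p ω ≤ ε) →
          ∀ A : Set (Kx r Z → Kx r Z),
            (∀ x : Fin 3 → Fin r → ZMod 2, (∀ i, x i ∈ Γ) → swG x ∈ A) →
            (1 - 2 * ε) * (r : ℝ) ^ 3 ≤
              ∑ ω, p ω * (numWirings encW (C ω) (pullW '' A) : ℝ)) ∧
    -- repeated squaring
    (∀ (V : Type) [Fintype V] [Nonempty V],
      ∃ (C : Circuit ℕ∞ (V × V) ℕ∞ Unit) (out : V → V → C.Gate),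
        (∀ W : V → V → ℕ∞, RightD C out id W) ∧
        numWirings encW C (pullW '' {f | ∃ π : Equiv.Perm V, f = π}) ≤
          Nat.clog 2 (Fintype.card V) * Fintype.card V ^ 3 +
            (Nat.clog 2 (Fintype.card V) + 1) * Fintype.card V ^ 2) :=
  ⟨apsp_bound, fun V _ _ => squaring_bound V⟩

end Pool.Agent.Results.MP_885423_lc.CubicWirings
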