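import Pool.Agent.TH697.Apsp.Final

set_option autoImplicit false

/-! # Linear programs for metricity and all-pairs shortest paths need a cubic number of inequalities

The input is the weight matrix of a complete undirected graph.  The question is whether every edge
is a shortest path (metricity, a problem which is subcubically equivalent to all-pairs shortest
paths). -/

namespace Pool.Agent.Results.MP_885423_lc.LinearPrograms

open Pool.Agent.TH697.Apsp

theorem result :
    (∀ n m : ℕ, 3 ≤ n → ∀ P : LP (Fin n × Fin n) m,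
      (∀ w : Fin n → Fin n → ℕ, IsWeights n 900 w → (∀ u v, dist w u v = w u v) →
        P.Accepts (fun x => (w x.1 x.2 : ℝ))) →
      (∀ w : Fin n → Fin n → ℕ, IsWeights n 900 w →
        (∃ u v, 1001 * dist w u v < 1000 * w u v) →
        ¬ P.Accepts (fun x => (w x.1 x.2 : ℝ))) →
      n ^ 3 ≤ 620000 * m) ∧
    (∀ n : ℕ, ∃ P : LP (Fin n × Fin n) (n ^ 3), P.p = 0 ∧
      ∀ w : Fin n → Fin n → ℕ,
        P.Accepts (fun x => (w x.1 x.2 : ℝ)) ↔ ∀ u v, dist w u v = w u v) :=
  ⟨fun _ _ hn P h1 h2 => lower hn P h1 h2, upper⟩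

end Pool.Agent.Results.MP_885423_lc.LinearPrograms
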