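import Mathlib
import Pool.Agent.TH272.Shr.MinPlusHeavy

/-!
# Shortest paths: circuits in which shared gates depend on few vertices

A directed graph has three layers of `n` vertices and the edge weights `A i k` (first to second
layer), `B k j` (second to third layer) and `C i j` (first to third layer), positive integers. Is
some edge `i → j` longer than a path `i → k → j`? The items of the input are the weights of all edges
at `i`, for each vertex `i` of the first layer, and the matrix `B`.

A circuit over the full binary basis is written as a sequence of formulas, one for each gate whose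
value is used more than once (a shared gate) and one for the output. The leaves are tests of the
input, that is, arbitrary Boolean functions of one item (part 1), or of `w` words of length
`c log₂ n`, where each word is an arbitrary function of one item (part 2). There may be any number of
shared gates and references to them. A shared gate is heavy (for `d`) if it depends, directly or by
other shared gates, on the edges at more than `d` vertices of the first layer; its dependence on the
matrix `B` does not matter.

* For random circuits with error probability at most `1 / 3`, one item in each test and weights up to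
  `2 ^ b + 1`, and for all `d`: `n ^ 3 b ≤ 100 (leaves + d (references + shared gates) + n
  (references to heavy gates + heavy gates))` (expected numbers). In particular random formulas need
  `n ^ 3 b / 100` leaves; this is the lower bound of helper697's `RandomizedFormulas`, which was in
  this folder.
* For tests of `w` words and weights up to `n + 1`: `n ^ 3 log₂ n ≤ 32 c w ^ 2 log₂ n leaves + 100 (…)`
  with the same `…`.
* Conversely, formulas with `n ^ 3 (4 b + 1)` leaves are enough for weights up to `2 ^ b - 1`.

Proof. By the coding of helper697 (`Pool.Agent.TH697.Form.MinPlus`) the edges at a vertex of the first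
layer can ask for about `n ^ 2 log₂ n` bits of the matrix `B`. If the other weights are fixed, the
circuit has at most `2 ^ (1 + s) 16 ^ r (16 q ^ (w - 1)) ^ l` subfunctions, where `s` is the number
of shared gates that depend on the vertex, `r` is the number of references to them, and `l` is the
number of leaves that see the vertex; the references to the other shared gates are constants. A
shared gate that is not heavy is counted for at most `d` vertices, a heavy one for at most `n`.
-/

set_option autoImplicit false

namespace Pool.Agent.Results.MP_885423_lc.LocalSharing

open Pool.Agent.TH697.Form (IsProb)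
open Pool.Agent.TH697.Row (ApproximatesOn)
open Pool.Agent.TH697.Form.MinPlus (Item InRange shortcut)
open Pool.Agent.TH272.Shr (Circuit mean)
open Pool.Agent.TH272.Shr.ZeroSum (numbers)

theorem result :
    (∀ n b d : ℕ, 5 ≤ n → 1 ≤ b → ∀ (Ω : Type) [Fintype Ω] (μ : Ω → ℝ), IsProb μ →
      ∀ C : Ω → Circuit (Option (Fin n)) (Item n) 1 2,
        ApproximatesOn μ (fun ω => (C ω).eval) (InRange n (2 ^ b + 1)) (shortcut n) →
          (n : ℝ) ^ 3 * b ≤ 100 * (mean μ (fun ω => (C ω).leaves) +
            d * (mean μ (fun ω => (C ω).refs) + mean μ (fun ω => (C ω).shared)) +
            n * (mean μ (fun ω => (C ω).heavyRefs (numbers n) d) +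
              mean μ (fun ω => (C ω).heavyGates (numbers n) d)))) ∧
    (∀ n c w d : ℕ, 16 ≤ n → 1 ≤ c → 1 ≤ w →
      ∀ (Ω : Type) [Fintype Ω] (μ : Ω → ℝ), IsProb μ →
      ∀ C : Ω → Circuit (Option (Fin n)) (Item n) w (n ^ c),
        ApproximatesOn μ (fun ω => (C ω).eval) (InRange n (n + 1)) (shortcut n) →
          (n : ℝ) ^ 3 * Nat.log 2 n ≤
            32 * c * w ^ 2 * Nat.log 2 n * mean μ (fun ω => (C ω).leaves) +
              100 * (d * (mean μ (fun ω => (C ω).refs) + mean μ (fun ω => (C ω).shared)) +
                n * (mean μ (fun ω => (C ω).heavyRefs (numbers n) d) +
                  mean μ (fun ω => (C ω).heavyGates (numbers n) d)))) ∧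
    (∀ n b : ℕ, 1 ≤ n → ∃ C : Circuit (Option (Fin n)) (Item n) 1 2,
      (∀ x, InRange n (2 ^ b - 1) x → C.eval x = shortcut n x) ∧ C.shared = 0 ∧ C.refs = 0 ∧
        C.leaves ≤ n ^ 3 * (4 * b + 1)) :=
  ⟨fun _ _ d hn hb _ _ μ hμ C hC =>
      Pool.Agent.TH272.Shr.MinPlus.single_heavy hn hb μ hμ C hC d,
    fun _ _ _ d hn hc hw _ _ μ hμ C hC =>
      Pool.Agent.TH272.Shr.MinPlus.main_heavy hn hc hw μ hμ C hC d,
    fun n b hn => Pool.Agent.TH272.Shr.MinPlus.upper n b hn⟩

end Pool.Agent.Results.MP_885423_lc.LocalSharing
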