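import Mathlib
import Pool.Agent.TH457.Ary.MinPlus

/-!
# Shortest paths: tests which see words

A directed graph has three layers of `n` vertices and the edge weights `A i k` (first to second
layer), `B k j` (second to third layer) and `C i j` (first to third layer), integers in
`{1, …, n + 1}`. Is some edge `i → j` longer than a path `i → k → j`? The items of the input are the
weights of all edges at `i`, for each vertex `i` of the first layer, and the matrix `B`. A test is an
arbitrary function of `w` words of length `c log₂ n`, where each word is an arbitrary function of one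
item. We show that random formulas over such tests (with arbitrary functions of two bits as gates)
and random branching programs over such tests need `n ^ 3 / (40 c w ^ 2)` leaves and
`n ^ 3 / (200 c w ^ 2)` nodes, if the error probability is at most `1 / 3`. For `w = 2` and `c = 2`
exhaustive search over the paths of length two has `n ^ 3` leaves or nodes, so it is optimal up to a
constant factor.

Proof. By the coding of helper697 (`Pool.Agent.TH697.Form.MinPlus`) the edges at a vertex of the first
layer can ask for about `n ^ 2 log₂ n` bits of the matrix `B`. If `r` leaves see the vertex, then only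
`2 (16 q ^ (w - 1)) ^ r`, `q = n ^ c`, functions of its weights arise when the other weights are
fixed.
-/

set_option autoImplicit false

namespace Pool.Agent.Results.MP_885423_lc.WordTests

open Pool.Agent.TH697.Form (IsProb)
open Pool.Agent.TH697.Row (ApproximatesOn)
open Pool.Agent.TH697.Form.MinPlus (Item InRange shortcut)
open Pool.Agent.TH457.Ary (Fml Program expSize)

theorem result :
    (∀ n c w : ℕ, 16 ≤ n → 1 ≤ c → 1 ≤ w →
      ∀ (Ω : Type) [Fintype Ω] (μ : Ω → ℝ), IsProb μ →
        (∀ F : Ω → Fml (Option (Fin n)) (Item n) w (n ^ c),
          ApproximatesOn μ (fun ω => (F ω).eval) (InRange n (n + 1)) (shortcut n) →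
          (n : ℝ) ^ 3 ≤ 40 * c * w ^ 2 * expSize μ F) ∧
        (∀ (s : ℕ) (B : Ω → Program (Option (Fin n)) (Item n) w (n ^ c) s),
          ApproximatesOn μ (fun ω => (B ω).eval) (InRange n (n + 1)) (shortcut n) →
          (n : ℝ) ^ 3 ≤ 200 * c * w ^ 2 * s)) ∧
    (∀ n : ℕ, 4 ≤ n →
      (∃ F : Fml (Option (Fin n)) (Item n) 2 (n ^ 2), F.size = n ^ 3 ∧
        ∀ x, InRange n (n + 1) x → F.eval x = shortcut n x) ∧
      ∃ B : Program (Option (Fin n)) (Item n) 2 (n ^ 2) (n ^ 3),
        ∀ x, InRange n (n + 1) x → B.eval x = shortcut n x) :=
  ⟨fun _ _ _ hn hc hw _ _ μ hμ =>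
    ⟨fun F hF => Pool.Agent.TH457.Ary.MinPlus.formula_bound hn hc hw μ hμ F hF,
      fun s B hB => Pool.Agent.TH457.Ary.MinPlus.program_bound hn hc hw μ hμ s B hB⟩,
    fun _ hn => Pool.Agent.TH457.Ary.MinPlus.upper hn⟩

end Pool.Agent.Results.MP_885423_lc.WordTests
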